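import Pool.Agent.R368.K3.Defs

/-!
# Abel–Jacobi maps on zero-cycles: definitions
-/

open CategoryTheory CategoryTheory.Limits AlgebraicGeometry
open Pool.Agent.H914 Pool.Agent.H914.VarClass Pool.Agent.H914.VarClass.Obj
open Pool.Agent.R903 Pool.Agent.R368.Zero Pool.Agent.R368.K3

universe u v w

namespace Pool.Agent.R368.AJZ

section Abstract

variable {A B : Type v} [CommRing A] [Algebra ℚ A] [CommRing B] [Algebra ℚ B] {H : Type w} [Ring H]
  {J : Type v} [AddCommGroup J] [Module ℚ J] {J' : Type v} [AddCommGroup J'] [Module ℚ J']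

/-- On the kernel of `f` on `U`: if `a x = 0` then `b (T x) = 0`. -/
def PreservesKer (f : A →+* H) (U : Submodule ℚ A) (a : A →ₗ[ℚ] J) (b : B →ₗ[ℚ] J')
    (T : A →ₗ[ℚ] B) : Prop :=
  ∀ x, InKer f U x → a x = 0 → b (T x) = 0

/-- `b (T x) = 0` for `x` in the kernel of `f` on `U`. -/
def MapsToKer (f : A →+* H) (U : Submodule ℚ A) (b : B →ₗ[ℚ] J') (T : A →ₗ[ℚ] B) : Prop :=
  ∀ x, InKer f U x → b (T x) = 0

/-- `a` is injective on the kernel of `f` on `U`. -/
def InjOnKer (f : A →+* H) (U : Submodule ℚ A) (a : A →ₗ[ℚ] J) : Prop :=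
  ∀ x, InKer f U x → a x = 0 → x = 0

end Abstract

variable {k : Type u} [Field k] {𝒱 : VarClass k} {C : ChowTheory.{u, v} 𝒱}

/-- `γ` lies in `CH^l(X × Y)`. -/
def IsCodim {X Y : 𝒱.Obj} (l : ℕ) (γ : C.CH (X.prod Y)) : Prop :=
  γ ∈ C.gr (X.prod Y) l

/-- Abel–Jacobi maps: for each `X` and `j` a homomorphism from `CH^j(X)_hom` to a rational vector
space `J X j` (extended linearly to `CH(X)` in some way; only its values on `CH^j(X)_hom` are used)
such that correspondences `γ` in `CH^l(X × Y)` respect the kernels, and map `CH^j(X)_hom` to the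
kernel if they act as zero on `H^(2j-1)(X)`. -/
structure AbelJacobi (W : WeilTheory.{u, v, w} C) where
  J : 𝒱.Obj → ℕ → Type v
  [grp : ∀ X j, AddCommGroup (J X j)]
  [mod : ∀ X j, Module ℚ (J X j)]
  aj : ∀ (X : 𝒱.Obj) (j : ℕ), C.CH X →ₗ[ℚ] J X j
  preservesKer : ∀ (X Y : 𝒱.Obj) (i j l : ℕ) (γ : C.CH (X.prod Y)), j + l = i + X.dim →
    IsCodim l γ → PreservesKer (W.cl X) (C.gr X j) (aj X j) (aj Y i) (C.act γ)
  mapsToKer : ∀ (X Y : 𝒱.Obj) (i j l : ℕ) (γ : C.CH (X.prod Y)), j + l = i + X.dim →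
    IsCodim l γ → KillsSub (W.gr X (2 * j - 1)) (W.act γ) →
      MapsToKer (W.cl X) (C.gr X j) (aj Y i) (C.act γ)

attribute [instance] AbelJacobi.grp AbelJacobi.mod

variable {W : WeilTheory.{u, v, w} C}

/-- The Abel–Jacobi map is injective on `CH^j(X)_hom`. -/
def InjectiveAt (A : AbelJacobi W) (X : 𝒱.Obj) (j : ℕ) : Prop :=
  InjOnKer (W.cl X) (C.gr X j) (A.aj X j)

/-- It is injective on `CH^n(X)_hom`, `n = dim X`: the kernel of the Albanese map of `X` is
torsion. -/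
def InjectiveOnPoints (A : AbelJacobi W) (X : 𝒱.Obj) : Prop :=
  InjectiveAt A X X.dim

/-- It is injective on `CH^1(X)_hom` for all `X` (known). -/
def InjectiveOnDivisors (A : AbelJacobi W) : Prop :=
  ∀ X : 𝒱.Obj, InjectiveAt A X 1

/-- Classes in `CH^n(Γ × X)` which act as zero on `H^1(Γ)` kill `CH^(dim Γ)(Γ)_hom`, `n = dim X`. -/
def CurveKills (W : WeilTheory.{u, v, w} C) (Γ X : 𝒱.Obj) : Prop :=
  ∀ γ : C.CH (Γ.prod X), IsCor γ → KillsSub (W.gr Γ 1) (W.act γ) → KillsPoints W γ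

/-- `P X` holds for all `X` of positive dimension. -/
def ForAll (P : 𝒱.Obj → Prop) : Prop :=
  ∀ X : 𝒱.Obj, 0 < X.dim → P X

end Pool.Agent.R368.AJZ
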