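import Pool.Agent.R368.AJZ.Defs
import Pool.Agent.R368.K3.Main

/-!
# Abel–Jacobi maps on zero-cycles
-/

open CategoryTheory CategoryTheory.Limits AlgebraicGeometry
open Pool.Agent.H914 Pool.Agent.H914.VarClass Pool.Agent.H914.VarClass.Obj
open Pool.Agent.R903 Pool.Agent.R903.WeilTheory Pool.Agent.R368.Zero Pool.Agent.R368.K3

universe u v w

namespace Pool.Agent.R368.AJZ

variable {k : Type u} [Field k] {𝒱 : VarClass k} {C : ChowTheory.{u, v} 𝒱}
  {W : WeilTheory.{u, v, w} C} {X Y Γ Z : 𝒱.Obj} {A : AbelJacobi W}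

theorem weight_of_inj (h : InjectiveOnPoints A X) : WeightKills W X := by
  intro γ hγ hk z hz
  exact h _ ⟨C.act_mem hγ hz.1 (by omega), by rw [W.cl_act, hz.2, map_zero]⟩
    (A.mapsToKer X X X.dim X.dim X.dim γ rfl hγ hk z hz)

theorem curves_of_inj (hΓ : Γ.dim = 1) (h : InjectiveOnPoints A X) : CurveKills W Γ X := by
  intro γ hγ hk y hy
  refine h _ ⟨C.act_mem hγ hy.1 (by omega), by rw [W.cl_act, hy.2, map_zero]⟩
    (A.mapsToKer Γ X X.dim Γ.dim X.dim γ (by omega) hγ ?_ y hy)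
  rw [hΓ]
  exact hk

theorem inj_of_lefSome (hF : DivisorsByH1 W) (hA : InjectiveOnDivisors A) (hX : 0 < X.dim)
    (h : LefSome W X) : InjectiveOnPoints A X := by
  obtain ⟨D, Λ, hL, hS⟩ := h
  intro z hz h0
  obtain ⟨y, hy, rfl⟩ := hS z hz
  have h1 := A.preservesKer X X 1 X.dim 1 Λ (by omega) hL.2.1 _ hz h0
  rw [hL.left hX hF hy] at h1
  rw [hA X y hy h1, mul_zero]

theorem weight_of_curves (hC : CurveGenerated W) (hX : 0 < X.dim)
    (h : ForCurves fun Γ : 𝒱.Obj => CurveKills W Γ X) : WeightKills W X := by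
  intro γ hγ hk z hz
  obtain ⟨Γ, f, y, hΓ, hy, rfl⟩ := hC X z hz
  have hmem : C.comp (C.graph f) γ ∈ C.gr (Γ.prod X) X.dim :=
    C.comp_mem (C.graph_mem f) hγ rfl
  have h1 := h Γ hΓ _ hmem (fun a ha => by
    rw [W.act_comp _ hγ]
    exact hk _ (W.act_mem (C.graph_mem f) ha (by rw [hΓ]; omega))) y (by rw [hΓ]; exact hy)
  rwa [C.act_comp, C.act_graph] at h1

theorem curves_of_homTriv (hP : C.Polarized) (hΓ : Γ.dim = 1)
    (h : HomTrivKills W (Γ.prod X) (Γ.prod X)) : CurveKills W Γ X := by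
  intro γ hγ hk
  obtain ⟨ρ, hρ, h0, h2, hfix⟩ := exists_curve_projector (W := W) hP hΓ
  have hmem : C.comp ρ γ ∈ C.gr (Γ.prod X) X.dim := C.comp_mem hρ hγ (by rw [hΓ]; omega)
  have hzero : ∀ a, W.act (C.comp ρ γ) a = 0 := by
    intro a
    rw [W.act_comp _ hγ]
    refine gr_induction (W.isInternal Γ) (p := fun a => W.act γ (W.act ρ a) = 0) ?_ ?_ a
    · intro l a ha
      by_cases hl0 : l = 0
      · subst hl0; rw [h0 a ha, map_zero]
      by_cases hl1 : l = 1
      · subst hl1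
        exact hk _ (W.act_mem hρ ha (by rw [hΓ]))
      by_cases hl2 : l = 2
      · subst hl2; rw [h2 a ha, map_zero]
      · rw [W.gr_eq_bot Γ l (by rw [hΓ]; omega), Submodule.mem_bot] at ha
        rw [ha, map_zero, map_zero]
    · intro a b ha hb
      rw [map_add, map_add, ha, hb, add_zero]
  have hkill : KillsPoints W (C.comp ρ γ) := curve_of_homTriv hP hΓ h _ hmem hzero
  intro y hy
  have h3 := hkill y hy
  rwa [C.act_comp, hfix y hy] at h3

theorem inj_tfae (hF : HasOneCycleFacts W) (hA : InjectiveOnDivisors A) (hX : 0 < X.dim) :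
    List.TFAE [InjectiveOnPoints A X, LefAll W X, LefSome W X, WeightKills W X,
      ForCurves fun Γ : 𝒱.Obj => CurveKills W Γ X] := by
  tfae_have 1 → 5 := fun h Γ hΓ => curves_of_inj hΓ h
  tfae_have 5 → 4 := weight_of_curves hF.curveGenerated hX
  tfae_have 4 → 2 := lefAll_of_weight hF.divisorsByH1 hX
  tfae_have 2 → 3 := lefSome_of_lefAll hF.hasLefOne hX
  tfae_have 3 → 1 := inj_of_lefSome hF.divisorsByH1 hA hX
  tfae_finish

theorem inj_of_products (hF : HasOneCycleFacts W) (hA : InjectiveOnDivisors A) (hX : 0 < X.dim)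
    (h : ForCurves fun Γ : 𝒱.Obj => HomTrivKills W (Γ.prod X) (Γ.prod X)) :
    InjectiveOnPoints A X :=
  ((inj_tfae hF hA hX).out 4 0).1 fun Γ hΓ => curves_of_homTriv hF.polarized hΓ (h Γ hΓ)

theorem inj_iff (hF : HasOneCycleFacts W) (hA : InjectiveOnDivisors A) :
    ForAll (InjectiveOnPoints A) ↔ ForAll fun X : 𝒱.Obj => HomTrivKills W X X :=
  ⟨fun h X hX => homTriv_of_weight (weight_of_inj (h X hX)), fun h X hX =>
    inj_of_products hF hA hX fun Γ hΓ => h (Γ.prod X) (by rw [dim_prod, hΓ]; omega)⟩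

end Pool.Agent.R368.AJZ
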